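import Pool.Agent.K3h41.GL.WEAK

/-!
Muckenhoupt's theorem, by the argument of Lerner.
-/

set_option autoImplicit false

open MeasureTheory Set
open scoped ENNReal NNReal

namespace Pool.Agent.K3h41.GL

open Pool.Agent.K3h74.GL

theorem avg_le_Mw (w f : ℝ → ℝ≥0∞) {x z y : ℝ} (h : |x - z| < y) :
    (∫⁻ t in I z y, f t * w t) / (∫⁻ t in I z y, w t) ≤ Mw w f x := by
  unfold Mw
  exact le_iSup_of_le z (le_iSup_of_le y (le_iSup_of_le h le_rfl))

theorem ae_I (z y : ℝ) : ∀ᵐ s ∂(volume.restrict (I z y)), |s - z| < y := by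
  unfold I
  rw [← restrict_Ioo_eq_restrict_Icc, ae_restrict_iff' measurableSet_Ioo]
  filter_upwards with s hs
  rw [abs_lt]
  constructor
  · linarith [hs.1]
  · linarith [hs.2]

theorem lerner (r : ℝ) (C : ℝ≥0∞) (hr : 1 < r) (w σ : ℝ → ℝ≥0∞) (hw : Wt r w C)
    (hσ : ∀ x, σ x = w x ^ (-(1 / (r - 1)))) (hσ0 : ∀ x, σ x ≠ 0) (hσ1 : ∀ x, σ x ≠ ∞)
    (hσm : Measurable σ) (hσloc : ∀ z y : ℝ, ∫⁻ x in I z y, σ x ≠ ∞)
    (f : ℝ → ℝ≥0∞) (x : ℝ) :
    Mx f x ^ (r - 1) ≤ C * Mw w (fun s => Mw σ (fun t => f t / σ t) s ^ (r - 1) * (w s)⁻¹) x := by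
  have hr1 : 0 < r - 1 := by linarith
  set F := Mw σ (fun t => f t / σ t) with hF
  rw [← ENNReal.le_rpow_inv_iff hr1]
  unfold Mx
  refine iSup_le fun z => iSup_le fun y => iSup_le fun hxy => ?_
  rw [ENNReal.le_rpow_inv_iff hr1]
  have hy : 0 < y := lt_of_le_of_lt (abs_nonneg _) hxy
  set A := ∫⁻ t in I z y, f t with hA
  set S := ∫⁻ t in I z y, σ t with hS
  set W := ∫⁻ t in I z y, w t with hW
  set a := ENNReal.ofReal (2 * y) with ha
  set m := A / S with hm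
  have hS0 : S ≠ 0 := lintegral_I_ne_zero hσm hσ0 z y hy
  have hS1 : S ≠ ∞ := hσloc z y
  have hW0 : W ≠ 0 := lintegral_I_ne_zero hw.meas hw.pos z y hy
  have hW1 : W ≠ ∞ := hw.loc z y
  have ha0 : a ≠ 0 := by
    rw [ha, Ne, ENNReal.ofReal_eq_zero]
    linarith
  have ha1 : a ≠ ∞ := ENNReal.ofReal_ne_top
  have hmF : ∀ᵐ s ∂(volume.restrict (I z y)), m ≤ F s := by
    filter_upwards [ae_I z y] with s hs
    have h1 := avg_le_Mw σ (fun t => f t / σ t) hs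
    have h2 : ∫⁻ t in I z y, f t / σ t * σ t = A := by
      rw [hA]
      refine lintegral_congr fun t => ?_
      exact ENNReal.div_mul_cancel (hσ0 t) (hσ1 t)
    rw [h2] at h1
    exact h1
  have hHw : ∀ s, F s ^ (r - 1) * (w s)⁻¹ * w s = F s ^ (r - 1) := by
    intro s
    rw [mul_assoc, ENNReal.inv_mul_cancel (hw.pos s) (hw.fin s), mul_one]
  have h3 : m ^ (r - 1) * a ≤ ∫⁻ s in I z y, F s ^ (r - 1) * (w s)⁻¹ * w s := by
    calc m ^ (r - 1) * a = ∫⁻ _ in I z y, m ^ (r - 1) := by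
          rw [setLIntegral_const, volume_I]
      _ ≤ ∫⁻ s in I z y, F s ^ (r - 1) * (w s)⁻¹ * w s := by
          apply lintegral_mono_ae
          filter_upwards [hmF] with s hs
          rw [hHw]
          exact ENNReal.rpow_le_rpow hs hr1.le
  have h4 : m ^ (r - 1) * a / W ≤ Mw w (fun s => F s ^ (r - 1) * (w s)⁻¹) x := by
    refine le_trans ?_ (avg_le_Mw w (fun s => F s ^ (r - 1) * (w s)⁻¹) hxy)
    gcongr
  have har : W * S ^ (r - 1) ≤ C * a ^ (r - 1) * a := by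
    have h5 := hw.ar z y hy
    have h6 : ∫⁻ t in I z y, w t ^ (-(1 / (r - 1))) = S := by
      rw [hS]
      exact lintegral_congr fun t => (hσ t).symm
    rw [h6] at h5
    refine h5.trans ?_
    rw [mul_assoc]
    gcongr
    calc ENNReal.ofReal y ^ r ≤ a ^ r := by
          apply ENNReal.rpow_le_rpow _ (by linarith)
          exact ENNReal.ofReal_le_ofReal (by linarith)
      _ = a ^ (r - 1) * a := by
          conv_lhs => rw [show r = (r - 1) + 1 by ring]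
          rw [ENNReal.rpow_add _ _ ha0 ha1, ENNReal.rpow_one]
  have hS' : S ^ (r - 1) ≤ C * a ^ (r - 1) * a / W := by
    rw [ENNReal.le_div_iff_mul_le (Or.inl hW0) (Or.inl hW1), mul_comm]
    exact har
  have ha2 : a ^ (r - 1) ≠ 0 := (ENNReal.rpow_pos (pos_iff_ne_zero.mpr ha0) ha1).ne'
  have ha3 : a ^ (r - 1) ≠ ∞ := ENNReal.rpow_ne_top_of_nonneg hr1.le ha1
  have hAm : A = m * S := (ENNReal.div_mul_cancel hS0 hS1).symm
  calc (A / a) ^ (r - 1) = m ^ (r - 1) * S ^ (r - 1) * (a ^ (r - 1))⁻¹ := by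
        rw [hAm, div_eq_mul_inv, ENNReal.mul_rpow_of_nonneg _ _ hr1.le,
          ENNReal.mul_rpow_of_nonneg _ _ hr1.le, ENNReal.inv_rpow]
    _ ≤ m ^ (r - 1) * (C * a ^ (r - 1) * a / W) * (a ^ (r - 1))⁻¹ := by gcongr
    _ = (a ^ (r - 1) * (a ^ (r - 1))⁻¹) * (C * (m ^ (r - 1) * a / W)) := by
        rw [div_eq_mul_inv, div_eq_mul_inv]
        ring
    _ = C * (m ^ (r - 1) * a / W) := by
        rw [ENNReal.mul_inv_cancel ha2 ha3, one_mul]
    _ ≤ _ := by gcongr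

theorem t_MAX : S_DBL → S_DUAL → S_MMX → S_STR → S_MAX := by
  intro hDBL hDUAL hMMX hSTR r C hr hC
  have hr1 : 0 < r - 1 := by linarith
  have hr0 : 0 < r := by linarith
  set s := 1 / (r - 1) with hs
  have hs0 : 0 < s := by positivity
  set r' := r / (r - 1) with hr'
  have hr'1 : 1 < r' := by
    rw [hr', lt_div_iff₀ hr1]
    linarith
  have hr'0 : 0 < r' := by linarith
  have hC' : C ^ s ≠ ∞ := ENNReal.rpow_ne_top_of_nonneg hs0.le hC
  obtain ⟨D, hD, hDw⟩ := hDBL r C hr hC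
  obtain ⟨D', hD', hDσ⟩ := hDBL r' (C ^ s) hr'1 hC'
  obtain ⟨K1, hK1, hS1⟩ := hSTR r' D hr'1 hD
  obtain ⟨K2, hK2, hS2⟩ := hSTR r D' hr hD'
  refine ⟨C ^ r' * K1 * K2, ENNReal.mul_ne_top (ENNReal.mul_ne_top
    (ENNReal.rpow_ne_top_of_nonneg hr'0.le hC) hK1) hK2, ?_⟩
  intro w hw f hf
  have hσ := hDUAL r C hr hC w hw
  set σ : ℝ → ℝ≥0∞ := fun x => w x ^ (-s) with hσdef
  set F := Mw σ (fun t => f t / σ t) with hF
  set H : ℝ → ℝ≥0∞ := fun x => F x ^ (r - 1) * (w x)⁻¹ with hH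
  have hFm : Measurable F := hMMX.2 _ _
  have hHm : Measurable H := (hFm.pow_const _).mul hw.meas.inv
  have e0 : (r - 1) * r' = r := by
    rw [hr']
    field_simp
  have h1 : ∀ x, Mx f x ^ r ≤ C ^ r' * Mw w H x ^ r' := by
    intro x
    have h2 := lerner r C hr w σ hw (fun x => rfl) hσ.pos hσ.fin hσ.meas hσ.loc f x
    calc Mx f x ^ r = (Mx f x ^ (r - 1)) ^ r' := by rw [← ENNReal.rpow_mul, e0]
      _ ≤ (C * Mw w H x) ^ r' := ENNReal.rpow_le_rpow h2 hr'0.le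
      _ = C ^ r' * Mw w H x ^ r' := ENNReal.mul_rpow_of_nonneg _ _ hr'0.le
  have h2 : ∀ x, H x ^ r' * w x = F x ^ r * σ x := by
    intro x
    rw [hH]
    simp only
    rw [ENNReal.mul_rpow_of_nonneg _ _ hr'0.le, ← ENNReal.rpow_mul, e0, ENNReal.inv_rpow,
      ← ENNReal.rpow_neg, mul_assoc]
    congr 1
    conv_lhs => rw [show w x = w x ^ (1 : ℝ) from (ENNReal.rpow_one _).symm]
    rw [← ENNReal.rpow_mul, ← ENNReal.rpow_add _ _ (hw.pos x) (hw.fin x), hσdef]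
    simp only
    congr 1
    rw [hr', hs]
    field_simp
    ring
  have h3 : ∀ x, (f x / σ x) ^ r * σ x = f x ^ r * w x := by
    intro x
    rw [div_eq_mul_inv, ENNReal.mul_rpow_of_nonneg _ _ hr0.le, mul_assoc]
    congr 1
    rw [hσdef]
    simp only
    rw [← ENNReal.rpow_neg, ← ENNReal.rpow_mul, ← ENNReal.rpow_add _ _ (hw.pos x) (hw.fin x)]
    conv_rhs => rw [show w x = w x ^ (1 : ℝ) from (ENNReal.rpow_one _).symm]
    congr 1
    rw [hs]
    field_simp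
    ring
  calc ∫⁻ x, Mx f x ^ r * w x ≤ ∫⁻ x, C ^ r' * (Mw w H x ^ r' * w x) := by
        refine lintegral_mono fun x => ?_
        rw [← mul_assoc]
        gcongr
        exact h1 x
    _ = C ^ r' * ∫⁻ x, Mw w H x ^ r' * w x := by
        rw [lintegral_const_mul]
        exact ((hMMX.2 w H).pow_const _).mul hw.meas
    _ ≤ C ^ r' * (K1 * ∫⁻ x, H x ^ r' * w x) := by
        gcongr
        exact hS1 w hw.meas hw.pos hw.fin hw.loc (hDw w hw) H hHm
    _ = C ^ r' * (K1 * ∫⁻ x, F x ^ r * σ x) := by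
        congr 2
        exact lintegral_congr h2
    _ ≤ C ^ r' * (K1 * (K2 * ∫⁻ x, (f x / σ x) ^ r * σ x)) := by
        gcongr
        exact hS2 σ hσ.meas hσ.pos hσ.fin hσ.loc (hDσ σ hσ) _ (hf.div hσ.meas)
    _ = C ^ r' * K1 * K2 * ∫⁻ x, f x ^ r * w x := by
        rw [lintegral_congr h3]
        ring

end Pool.Agent.K3h41.GL
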