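import Pool.Agent.K3h41.GL.WEAK

/-!
The strong type inequality.
-/

set_option autoImplicit false

open MeasureTheory Set
open scoped ENNReal NNReal

namespace Pool.Agent.K3h41.GL

open Pool.Agent.K3h74.GL

theorem avg_const_le (w : ℝ → ℝ≥0∞) (c : ℝ≥0∞) (z y : ℝ) :
    (∫⁻ s in I z y, c * w s) / (∫⁻ s in I z y, w s) ≤ c := by
  by_cases h0 : ∫⁻ s in I z y, w s = 0
  · by_cases hc : c = ∞
    · rw [hc]
      exact le_top
    · rw [lintegral_const_mul' _ _ hc, h0, mul_zero]
      simp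
  · by_cases hc : c = ∞
    · rw [hc]
      exact le_top
    rw [lintegral_const_mul' _ _ hc]
    by_cases h1 : ∫⁻ s in I z y, w s = ∞
    · rw [h1]
      simp
    · rw [ENNReal.mul_div_cancel_right h0 h1]

theorem mw_subset (w f : ℝ → ℝ≥0∞) (hw : Measurable w) (t : ℝ) (ht : 0 < t) (x : ℝ)
    (hx : ENNReal.ofReal t < Mw w f x) :
    ENNReal.ofReal (t / 2) < Mw w ({x | ENNReal.ofReal t < 2 * f x}.indicator f) x := by
  unfold Mw at hx ⊢
  simp only [lt_iSup_iff] at hx ⊢
  obtain ⟨z, y, hy, h⟩ := hx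
  refine ⟨z, y, hy, ?_⟩
  set f' := {x | ENNReal.ofReal t < 2 * f x}.indicator f with hf'
  have h1 : ∀ s, f s ≤ f' s + ENNReal.ofReal (t / 2) := by
    intro s
    by_cases hs : ENNReal.ofReal t < 2 * f s
    · rw [hf', Set.indicator_of_mem (by exact hs)]
      exact le_self_add
    · rw [hf', Set.indicator_of_notMem (by exact hs), zero_add]
      rw [not_lt] at hs
      have h2 : ENNReal.ofReal (t / 2) = ENNReal.ofReal t / 2 := by
        rw [ENNReal.ofReal_div_of_pos (by norm_num)]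
        simp
      rw [h2, ENNReal.le_div_iff_mul_le (by simp) (by simp), mul_comm]
      exact hs
  have h2 : (∫⁻ s in I z y, f s * w s) / (∫⁻ s in I z y, w s) ≤
      (∫⁻ s in I z y, f' s * w s) / (∫⁻ s in I z y, w s) + ENNReal.ofReal (t / 2) := by
    calc (∫⁻ s in I z y, f s * w s) / (∫⁻ s in I z y, w s)
        ≤ (∫⁻ s in I z y, (f' s * w s + ENNReal.ofReal (t / 2) * w s)) /
            (∫⁻ s in I z y, w s) := by
          gcongr with s
          rw [← add_mul]
          gcongr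
          exact h1 s
      _ = (∫⁻ s in I z y, f' s * w s) / (∫⁻ s in I z y, w s) +
            (∫⁻ s in I z y, ENNReal.ofReal (t / 2) * w s) / (∫⁻ s in I z y, w s) := by
          rw [lintegral_add_right _ (hw.const_mul _), ENNReal.add_div]
      _ ≤ _ := by
          gcongr
          exact avg_const_le w _ z y
  by_contra hc
  rw [not_lt] at hc
  have h3 : ENNReal.ofReal t = ENNReal.ofReal (t / 2) + ENNReal.ofReal (t / 2) := by
    rw [← ENNReal.ofReal_add (by positivity) (by positivity)]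
    congr 1
    ring
  have h4 : ENNReal.ofReal t < ENNReal.ofReal t := by
    calc ENNReal.ofReal t < _ := h
      _ ≤ _ := h2
      _ ≤ ENNReal.ofReal (t / 2) + ENNReal.ofReal (t / 2) := by gcongr
      _ = ENNReal.ofReal t := h3.symm
  exact lt_irrefl _ h4

theorem t_STR : S_LC → S_MMX → S_WEAK → S_STR := by
  intro hLC hMMX hWEAK r D hr hD
  have hr0 : 0 < r := by linarith
  have hr1 : 0 < r - 1 := by linarith
  have hr1' : ENNReal.ofReal (r - 1) ≠ 0 := by
    rw [Ne, ENNReal.ofReal_eq_zero]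
    linarith
  set K0 : ℝ≥0∞ := ENNReal.ofReal r * (2 * D) * (ENNReal.ofReal (r - 1))⁻¹ * 2 ^ (r - 1) with hK0
  refine ⟨K0 + 1, ?_, ?_⟩
  · rw [ENNReal.add_ne_top, hK0]
    refine ⟨?_, ENNReal.one_ne_top⟩
    refine ENNReal.mul_ne_top (ENNReal.mul_ne_top (ENNReal.mul_ne_top ENNReal.ofReal_ne_top
      (ENNReal.mul_ne_top (by simp) hD)) ?_) ?_
    · exact ENNReal.inv_ne_top.mpr hr1'
    · exact ENNReal.rpow_ne_top_of_nonneg hr1.le (by simp)
  intro w hw h0 hfin hloc hdbl f hf
  by_cases hF : ∫⁻ x, f x ^ r * w x = ∞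
  · rw [hF, ENNReal.mul_top (by simp)]
    exact le_top
  have hfae : ∀ᵐ x, f x ≠ ∞ := by
    have h1 : ∀ᵐ x, f x ^ r * w x < ∞ := ae_lt_top ((hf.pow_const r).mul hw) hF
    filter_upwards [h1] with x hx hfx
    rw [hfx, ENNReal.top_rpow_of_pos hr0, ENNReal.top_mul (h0 x)] at hx
    exact lt_irrefl _ hx
  let μ : Measure ℝ := volume.withDensity w
  let ν : Measure ℝ := volume.withDensity fun x => f x * w x
  have hμ : SigmaFinite μ := SigmaFinite.withDensity_of_ne_top (Filter.Eventually.of_forall hfin)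
  have hν : SigmaFinite ν := by
    apply SigmaFinite.withDensity_of_ne_top
    filter_upwards [hfae] with x hx
    exact ENNReal.mul_ne_top hx (hfin x)
  have hMw : Measurable (Mw w f) := hMMX.2 w f
  have e1 : ∫⁻ x, Mw w f x ^ r * w x = ∫⁻ x, Mw w f x ^ r ∂μ := by
    rw [lintegral_withDensity_eq_lintegral_mul _ hw (hMw.pow_const r)]
    refine lintegral_congr fun x => ?_
    rw [Pi.mul_apply, mul_comm]
  have hfw : Measurable fun x => f x * w x := hf.mul hw
  have hfr : Measurable fun x => f x ^ r * w x := (hf.pow_const r).mul hw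
  have e2 : ∫⁻ x, (2 * f x) ^ (r - 1) ∂ν = 2 ^ (r - 1) * ∫⁻ x, f x ^ r * w x := by
    rw [lintegral_withDensity_eq_lintegral_mul _ hfw ((hf.const_mul 2).pow_const (r - 1)),
      ← lintegral_const_mul _ hfr]
    refine lintegral_congr fun x => ?_
    rw [Pi.mul_apply, ENNReal.mul_rpow_of_nonneg _ _ hr1.le]
    have h3 : f x ^ r = f x * f x ^ (r - 1) := by
      conv_lhs => rw [show r = 1 + (r - 1) by ring]
      rw [ENNReal.rpow_add_of_nonneg _ _ zero_le_one hr1.le, ENNReal.rpow_one]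
    rw [h3]
    ring
  have hmeas : ∀ t : ℝ, MeasurableSet {x | ENNReal.ofReal t < 2 * f x} := fun t =>
    measurableSet_lt measurable_const (hf.const_mul 2)
  have key : ∀ t ∈ Ioi (0 : ℝ), ENNReal.ofReal (t ^ (r - 1)) * μ {x | ENNReal.ofReal t < Mw w f x} ≤
      2 * D * (ENNReal.ofReal (t ^ (r - 1 - 1)) * ν {x | ENNReal.ofReal t < 2 * f x}) := by
    intro t ht
    have ht0 : (0 : ℝ) < t := ht
    set f' := {x | ENNReal.ofReal t < 2 * f x}.indicator f with hf'
    have hf'm : Measurable f' := hf.indicator (hmeas t)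
    have h1 : μ {x | ENNReal.ofReal t < Mw w f x} ≤
        D / ENNReal.ofReal (t / 2) * ∫⁻ x, f' x * w x := by
      calc μ {x | ENNReal.ofReal t < Mw w f x}
          ≤ μ {x | ENNReal.ofReal (t / 2) < Mw w f' x} :=
            measure_mono fun x hx => mw_subset w f hw t ht0 x hx
        _ = ∫⁻ x in {x | ENNReal.ofReal (t / 2) < Mw w f' x}, w x :=
            withDensity_apply w (measurableSet_lt measurable_const (hMMX.2 w f'))
        _ ≤ _ := hWEAK w D hw h0 hloc hdbl f' hf'm _ (by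
            rw [Ne, ENNReal.ofReal_eq_zero]
            linarith) ENNReal.ofReal_ne_top
    have h2 : ∫⁻ x, f' x * w x = ν {x | ENNReal.ofReal t < 2 * f x} := by
      rw [withDensity_apply _ (hmeas t), ← lintegral_indicator (hmeas t)]
      refine lintegral_congr fun x => ?_
      rw [hf']
      by_cases hx : ENNReal.ofReal t < 2 * f x
      · rw [Set.indicator_of_mem (by exact hx), Set.indicator_of_mem (by exact hx)]
      · rw [Set.indicator_of_notMem (by exact hx), Set.indicator_of_notMem (by exact hx), zero_mul]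
    rw [h2] at h1
    have h3 : ENNReal.ofReal (t ^ (r - 1)) * (D / ENNReal.ofReal (t / 2)) =
        2 * D * ENNReal.ofReal (t ^ (r - 1 - 1)) := by
      have h4 : t ^ (r - 1) = t ^ (r - 1 - 1) * t := by
        rw [← Real.rpow_add_one ht0.ne']
        congr 1
        ring
      have h5 : ENNReal.ofReal (t / 2) = ENNReal.ofReal t * 2⁻¹ := by
        rw [div_eq_mul_inv, ENNReal.ofReal_mul ht0.le, ENNReal.ofReal_inv_of_pos (by norm_num)]
        simp
      have h6 : ENNReal.ofReal t ≠ 0 := by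
        rw [Ne, ENNReal.ofReal_eq_zero]
        linarith
      rw [h4, ENNReal.ofReal_mul (Real.rpow_nonneg ht0.le _), h5, ENNReal.div_eq_inv_mul,
        ENNReal.mul_inv (Or.inl h6) (Or.inl ENNReal.ofReal_ne_top), inv_inv]
      calc ENNReal.ofReal (t ^ (r - 1 - 1)) * ENNReal.ofReal t *
            ((ENNReal.ofReal t)⁻¹ * 2 * D)
          = (ENNReal.ofReal t * (ENNReal.ofReal t)⁻¹) *
              (2 * D * ENNReal.ofReal (t ^ (r - 1 - 1))) := by ring
        _ = _ := by rw [ENNReal.mul_inv_cancel h6 ENNReal.ofReal_ne_top, one_mul]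
    calc ENNReal.ofReal (t ^ (r - 1)) * μ {x | ENNReal.ofReal t < Mw w f x}
        ≤ ENNReal.ofReal (t ^ (r - 1)) * (D / ENNReal.ofReal (t / 2) *
            ν {x | ENNReal.ofReal t < 2 * f x}) := by gcongr
      _ = 2 * D * ENNReal.ofReal (t ^ (r - 1 - 1)) * ν {x | ENNReal.ofReal t < 2 * f x} := by
          rw [← mul_assoc, h3]
      _ = _ := by rw [mul_assoc]
  have hLC1 := hLC μ r hr0 (Mw w f) hMw
  have hLC2 := hLC ν (r - 1) hr1 (fun x => 2 * f x) (hf.const_mul 2)
  rw [e2] at hLC2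
  have h7 : ∫⁻ t in Ioi (0 : ℝ), ENNReal.ofReal (t ^ (r - 1 - 1)) *
      ν {x | ENNReal.ofReal t < 2 * f x} =
      (ENNReal.ofReal (r - 1))⁻¹ * (2 ^ (r - 1) * ∫⁻ x, f x ^ r * w x) := by
    rw [hLC2, ← mul_assoc, ENNReal.inv_mul_cancel hr1' ENNReal.ofReal_ne_top, one_mul]
  rw [e1, hLC1]
  have hmono : Measurable fun t : ℝ => ν {x | ENNReal.ofReal t < 2 * f x} := by
    apply Antitone.measurable
    intro a b hab
    apply measure_mono
    intro x hx
    exact lt_of_le_of_lt (ENNReal.ofReal_le_ofReal hab) hx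
  calc ENNReal.ofReal r * ∫⁻ t in Ioi (0 : ℝ), ENNReal.ofReal (t ^ (r - 1)) *
        μ {x | ENNReal.ofReal t < Mw w f x}
      ≤ ENNReal.ofReal r * ∫⁻ t in Ioi (0 : ℝ), 2 * D * (ENNReal.ofReal (t ^ (r - 1 - 1)) *
          ν {x | ENNReal.ofReal t < 2 * f x}) := by
        gcongr ENNReal.ofReal r * ?_
        exact setLIntegral_mono' measurableSet_Ioi key
    _ = ENNReal.ofReal r * (2 * D * ((ENNReal.ofReal (r - 1))⁻¹ *
          (2 ^ (r - 1) * ∫⁻ x, f x ^ r * w x))) := by
        rw [lintegral_const_mul _ (by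
          refine Measurable.mul ?_ hmono
          fun_prop), h7]
    _ = K0 * ∫⁻ x, f x ^ r * w x := by
        rw [hK0]
        ring
    _ ≤ (K0 + 1) * ∫⁻ x, f x ^ r * w x := by
        gcongr
        exact le_self_add

end Pool.Agent.K3h41.GL
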