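import Pool.Agent.K3h74.GL.Stm

/-!
Measurability of the maximal functions and the weak type inequality.
-/

set_option autoImplicit false

open MeasureTheory Set Metric
open scoped ENNReal NNReal

namespace Pool.Agent.K3h41.GL

open Pool.Agent.K3h74.GL

theorem isOpen_sup (c : ℝ → ℝ → ℝ≥0∞) (a : ℝ≥0∞) :
    IsOpen {x : ℝ | a < ⨆ (z : ℝ) (y : ℝ) (_ : |x - z| < y), c z y} := by
  have h : {x : ℝ | a < ⨆ (z : ℝ) (y : ℝ) (_ : |x - z| < y), c z y} =
      ⋃ (z : ℝ) (y : ℝ) (_ : a < c z y), {x | |x - z| < y} := by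
    ext x
    simp only [lt_iSup_iff, Set.mem_ofPred_eq, Set.mem_iUnion, exists_prop]
    constructor
    · rintro ⟨z, y, h1, h2⟩
      exact ⟨z, y, h2, h1⟩
    · rintro ⟨z, y, h1, h2⟩
      exact ⟨z, y, h2, h1⟩
  rw [h]
  refine isOpen_iUnion fun z => isOpen_iUnion fun y => isOpen_iUnion fun _ => ?_
  exact isOpen_lt (by fun_prop) continuous_const

theorem measurable_sup (c : ℝ → ℝ → ℝ≥0∞) :
    Measurable fun x : ℝ => ⨆ (z : ℝ) (y : ℝ) (_ : |x - z| < y), c z y :=
  measurable_of_Ioi fun a => (isOpen_sup c a).measurableSet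

theorem t_MMX : S_MMX :=
  ⟨fun f => measurable_sup fun z y => (∫⁻ t in I z y, f t) / ENNReal.ofReal (2 * y),
    fun w f => measurable_sup fun z y => (∫⁻ t in I z y, f t * w t) / (∫⁻ t in I z y, w t)⟩

theorem measurableSet_I (z y : ℝ) : MeasurableSet (I z y) := measurableSet_Icc

theorem volume_I (z y : ℝ) : volume (I z y) = ENNReal.ofReal (2 * y) := by
  unfold I
  rw [Real.volume_Icc]
  congr 1
  ring

theorem lintegral_I_ne_zero {w : ℝ → ℝ≥0∞} (hw : Measurable w) (h0 : ∀ x, w x ≠ 0) (z y : ℝ)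
    (hy : 0 < y) : ∫⁻ x in I z y, w x ≠ 0 := by
  intro h
  rw [lintegral_eq_zero_iff hw, Filter.EventuallyEq, ae_restrict_iff' (measurableSet_I z y)] at h
  have h1 : volume (I z y) = 0 := by
    refine measure_mono_null ?_ (ae_iff.mp h)
    intro x hx
    simp only [Set.mem_ofPred_eq, not_forall]
    exact ⟨hx, h0 x⟩
  rw [volume_I, ENNReal.ofReal_eq_zero] at h1
  linarith

theorem t_WEAK : S_WEAK := by
  intro w D hw h0 hloc hD f hf t ht0 ht1
  let c : ℝ → ℝ → ℝ≥0∞ := fun z y => (∫⁻ s in I z y, f s * w s) / (∫⁻ s in I z y, w s)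
  let μ : Measure ℝ := volume.withDensity w
  have hμ : ∀ s : Set ℝ, MeasurableSet s → μ s = ∫⁻ x in s, w x := fun s hs =>
    withDensity_apply w hs
  let E : ℕ → Set ℝ := fun n => ⋃ (z : ℝ) (y : ℝ) (_ : y ≤ n ∧ t < c z y), {x | |x - z| < y}
  have hEo : ∀ n, IsOpen (E n) := fun n =>
    isOpen_iUnion fun z => isOpen_iUnion fun y => isOpen_iUnion fun _ =>
      isOpen_lt (by fun_prop) continuous_const
  have hEmono : Monotone E := by
    intro n m hnm x hx
    simp only [E, Set.mem_iUnion] at hx ⊢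
    obtain ⟨z, y, ⟨h1, h2⟩, h3⟩ := hx
    exact ⟨z, y, ⟨h1.trans (by exact_mod_cast hnm), h2⟩, h3⟩
  have hEU : {x | t < Mw w f x} = ⋃ n, E n := by
    ext x
    unfold Mw
    simp only [lt_iSup_iff, Set.mem_ofPred_eq, Set.mem_iUnion, exists_prop, E]
    constructor
    · rintro ⟨z, y, h1, h2⟩
      obtain ⟨n, hn⟩ := exists_nat_ge y
      exact ⟨n, z, y, ⟨hn, h2⟩, h1⟩
    · rintro ⟨n, z, y, ⟨hn, h2⟩, h1⟩
      exact ⟨z, y, h1, h2⟩
  have key : ∀ n, μ (E n) ≤ D / t * ∫⁻ x, f x * w x := by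
    intro n
    let T : Set (ℝ × ℝ) := {p | 0 < p.2 ∧ p.2 ≤ n ∧ t < c p.1 p.2}
    obtain ⟨u, huT, hdisj, hcov⟩ := Vitali.exists_disjoint_subfamily_covering_enlargement_closedBall
      T (fun p : ℝ × ℝ => p.1) (fun p => p.2) n (fun p hp => hp.2.1) 5 (by norm_num)
    have hI : ∀ z r : ℝ, closedBall z r = I z r := fun z r => Real.closedBall_eq_Icc
    have hucount : u.Countable := by
      apply hdisj.countable_of_nonempty_interior
      intro p hp
      change (interior (closedBall p.1 p.2)).Nonempty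
      rw [hI]
      unfold I
      rw [interior_Icc]
      refine nonempty_Ioo.mpr ?_
      have := (huT hp).1
      linarith
    have hEsub : E n ⊆ ⋃ p ∈ u, I p.1 (5 * p.2) := by
      intro x hx
      simp only [E, Set.mem_iUnion, Set.mem_ofPred_eq] at hx
      obtain ⟨z, y, ⟨h1, h2⟩, h3⟩ := hx
      have hy : 0 < y := lt_of_le_of_lt (abs_nonneg _) h3
      obtain ⟨b, hb, hb2⟩ := hcov (z, y) ⟨hy, h1, h2⟩
      rw [Set.mem_iUnion₂]
      refine ⟨b, hb, ?_⟩
      have h4 : x ∈ closedBall z y := by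
        rw [mem_closedBall, Real.dist_eq]
        exact h3.le
      have h5 := hb2 h4
      rwa [hI] at h5
    have hdisj' : u.PairwiseDisjoint fun p : ℝ × ℝ => I p.1 p.2 := by
      intro p hp q hq hpq
      have := hdisj hp hq hpq
      simp only [Function.onFun, hI] at this ⊢
      exact this
    have hone : ∀ p ∈ u, μ (I p.1 (5 * p.2)) ≤ D / t * ∫⁻ x in I p.1 p.2, f x * w x := by
      intro p hp
      obtain ⟨h1, -, h2⟩ := huT hp
      rw [hμ _ (measurableSet_I _ _)]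
      refine (hD p.1 p.2 h1).trans ?_
      have h3 : t * ∫⁻ x in I p.1 p.2, w x ≤ ∫⁻ x in I p.1 p.2, f x * w x := by
        have h4 : t < (∫⁻ s in I p.1 p.2, f s * w s) / (∫⁻ s in I p.1 p.2, w s) := h2
        rw [ENNReal.lt_div_iff_mul_lt (Or.inl (lintegral_I_ne_zero hw h0 _ _ h1))
          (Or.inl (hloc _ _))] at h4
        exact h4.le
      rw [ENNReal.div_eq_inv_mul, mul_comm t⁻¹ D, mul_assoc]
      gcongr
      rw [mul_comm t] at h3
      rw [← ENNReal.div_eq_inv_mul]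
      exact (ENNReal.le_div_iff_mul_le (Or.inl ht0) (Or.inl ht1)).mpr h3
    calc μ (E n) ≤ μ (⋃ p ∈ u, I p.1 (5 * p.2)) := measure_mono hEsub
      _ ≤ ∑' p : u, μ (I p.1.1 (5 * p.1.2)) := measure_biUnion_le μ hucount _
      _ ≤ ∑' p : u, D / t * ∫⁻ x in I p.1.1 p.1.2, f x * w x :=
          ENNReal.tsum_le_tsum fun p => hone p.1 p.2
      _ = D / t * ∑' p : u, ∫⁻ x in I p.1.1 p.1.2, f x * w x := ENNReal.tsum_mul_left
      _ = D / t * ∫⁻ x in ⋃ p ∈ u, I p.1 p.2, f x * w x := by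
          rw [lintegral_biUnion hucount (fun p _ => measurableSet_I _ _) hdisj']
      _ ≤ D / t * ∫⁻ x, f x * w x := by
          gcongr
          exact Measure.restrict_le_self
  have hEm : MeasurableSet {x | t < Mw w f x} := by
    rw [hEU]
    exact (isOpen_iUnion hEo).measurableSet
  rw [← hμ _ hEm, hEU, hEmono.measure_iUnion]
  exact iSup_le key

end Pool.Agent.K3h41.GL
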